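import Pool.Agent.Helper40.AV.St

/-!
# AV8: rough integers without a large prime factor
-/

set_option autoImplicit false

open Filter Topology

namespace Pool.Agent.Helper61.AV

open Pool.Agent.Helper40.AV Pool.Agent.Helper44

theorem mem_PI {a b : ℝ} (hb : 0 ≤ b) {p : ℕ} : p ∈ PI a b ↔ p.Prime ∧ a < (p : ℝ) ∧ (p : ℝ) ≤ b := by
  unfold PI
  rw [Finset.mem_filter, mem_primesUpTo hb]
  tauto

theorem sum_inv_PI_le {a b X : ℝ} (hb : 0 ≤ b) (hbX : b ≤ X) (hX : 1 ≤ X) :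
    ∑ p ∈ PI a b, (1 : ℝ) / p ≤ 1 + Real.log X := by
  have h := harmonic_floor_le_one_add_log X hX
  refine le_trans ?_ h
  rw [harmonic_eq_sum_Icc]
  push_cast
  simp only [one_div]
  apply Finset.sum_le_sum_of_subset_of_nonneg
  · intro p hp
    rw [mem_PI hb] at hp
    rw [Finset.mem_Icc]
    exact ⟨hp.1.one_lt.le, Nat.le_floor (hp.2.2.trans hbX)⟩
  · intro i _ _
    positivity

theorem one_le_cu {u : ℝ} (h1 : 1 ≤ u) (h2 : u ≤ 2) : 1 ≤ cu u := by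
  unfold cu
  have h := Real.log_le_sub_one_of_pos (show 0 < u by linarith)
  have h3 : u * Real.log u ≤ u * (u - 1) := mul_le_mul_of_nonneg_left h (by linarith)
  nlinarith [mul_nonneg (sub_nonneg.2 h1) (sub_nonneg.2 h2)]

theorem continuousOn_cu : ContinuousOn cu (Set.Ioi 0) := by
  unfold cu
  apply ContinuousOn.sub
  · fun_prop
  · apply ContinuousOn.mul continuousOn_id
    exact Real.continuousOn_log.mono (fun x hx => ne_of_gt hx)

theorem rpow_ratio {X : ℝ} (hX : 1 < X) {p : ℕ} (hp : 0 < (p : ℝ)) :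
    X ^ (Real.log p / Real.log X) = (p : ℝ) := by
  have hl : 0 < Real.log X := Real.log_pos hX
  rw [Real.rpow_def_of_pos (by linarith), mul_div_cancel₀ _ hl.ne', Real.exp_log hp]

theorem ratio_bounds {X : ℝ} (hX : 1 < X) {p : ℕ} {α β : ℝ} (h1 : X ^ α < (p : ℝ))
    (h2 : (p : ℝ) ≤ X ^ β) : α < Real.log p / Real.log X ∧ Real.log p / Real.log X ≤ β := by
  have hl : 0 < Real.log X := Real.log_pos hX
  have hX0 : 0 < X := by linarith
  have hp : 0 < (p : ℝ) := lt_trans (Real.rpow_pos_of_pos hX0 _) h1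
  constructor
  · rw [lt_div_iff₀ hl, ← Real.log_rpow hX0]
    exact Real.log_lt_log (Real.rpow_pos_of_pos hX0 _) h1
  · rw [div_le_iff₀ hl, ← Real.log_rpow hX0]
    exact Real.log_le_log hp h2

theorem PI_union {a b c : ℝ} (ha : 0 ≤ b) (hab : a ≤ b) (hbc : b ≤ c) :
    PI a c = PI a b ∪ PI b c := by
  ext p
  rw [Finset.mem_union, mem_PI (ha.trans hbc), mem_PI ha, mem_PI (ha.trans hbc)]
  constructor
  · rintro ⟨h1, h2, h3⟩
    rcases le_or_gt (p : ℝ) b with h | h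
    · exact Or.inl ⟨h1, h2, h⟩
    · exact Or.inr ⟨h1, h, h3⟩
  · rintro (⟨h1, h2, h3⟩ | ⟨h1, h2, h3⟩)
    · exact ⟨h1, h2, h3.trans hbc⟩
    · exact ⟨h1, hab.trans_lt h2, h3⟩

theorem PI_disj {a b c : ℝ} (ha : 0 ≤ b) (hbc : b ≤ c) : Disjoint (PI a b) (PI b c) := by
  rw [Finset.disjoint_left]
  intro p h1 h2
  rw [mem_PI ha] at h1
  rw [mem_PI (ha.trans hbc)] at h2
  exact absurd h1.2.2 (not_le.2 h2.2.1)

/-- the comparison of `l / p + 1` with `l / p` -/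
theorem lp_le {X : ℝ} (hX : 1 < X) {l p : ℕ} (hl : X ^ (0.4998 : ℝ) ≤ l) (hp0 : 0 < (p : ℝ))
    (hp : (p : ℝ) ≤ X ^ (0.435 : ℝ)) :
    (l : ℝ) / p + 1 ≤ (l : ℝ) / p * (1 + X ^ (-0.0648 : ℝ)) := by
  have hX0 : 0 < X := by linarith
  rw [mul_add, mul_one, add_le_add_iff_left, Real.rpow_neg hX0.le, ← div_eq_mul_inv, div_div,
    le_div_iff₀ (by positivity), one_mul]
  calc (p : ℝ) * X ^ (0.0648 : ℝ) ≤ X ^ (0.435 : ℝ) * X ^ (0.0648 : ℝ) := by gcongr
    _ = X ^ (0.4998 : ℝ) := by rw [← Real.rpow_add hX0]; norm_num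
    _ ≤ l := hl

/-- the functions -/
noncomputable def f₁ (a : ℝ) : ℝ := 8 * a / cu (4 * (0.4995 - a))

noncomputable def f₂ (a : ℝ) : ℝ := 2 * a / (0.4995 - a)

theorem cont₁ : ContinuousOn f₁ (Set.Icc (1 / 8) 0.2495) := by
  unfold f₁
  apply ContinuousOn.div
  · fun_prop
  · apply continuousOn_cu.comp (by fun_prop)
    intro a ha
    simp only [Set.mem_Ioi]
    have := ha.2
    norm_num at this ⊢
    linarith
  · intro a ha
    have := one_le_cu (u := 4 * (0.4995 - a)) (by linarith [ha.2]) (by linarith [ha.1])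
    linarith

theorem cont₂ : ContinuousOn f₂ (Set.Icc 0.2495 0.435) := by
  unfold f₂
  apply ContinuousOn.div
  · fun_prop
  · fun_prop
  · intro a ha
    have := ha.2
    norm_num at this ⊢
    linarith

theorem int₁ : ∫ a in (1 / 8 : ℝ)..(0.2495 : ℝ), f₁ a / a =
    ∫ a in (1 / 8 : ℝ)..(0.2495 : ℝ), 8 / cu (4 * (0.4995 - a)) := by
  apply intervalIntegral.integral_congr
  intro a ha
  rw [Set.uIcc_of_le (by norm_num)] at ha
  have ha0 : a ≠ 0 := by have := ha.1; intro h; norm_num [h] at this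
  change 8 * a / cu (4 * (0.4995 - a)) / a = _
  rw [div_div, mul_comm (cu _) a, mul_comm 8 a, mul_div_mul_left _ _ ha0]

theorem int₂ : ∫ a in (0.2495 : ℝ)..(0.435 : ℝ), f₂ a / a =
    ∫ a in (0.2495 : ℝ)..(0.435 : ℝ), 2 / (0.4995 - a) := by
  apply intervalIntegral.integral_congr
  intro a ha
  rw [Set.uIcc_of_le (by norm_num)] at ha
  have ha0 : a ≠ 0 := by have := ha.1; intro h; norm_num [h] at this
  change 2 * a / (0.4995 - a) / a = _
  rw [div_div, mul_comm (0.4995 - a) a, mul_comm 2 a, mul_div_mul_left _ _ ha0]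

/-- the upper bound -/
noncomputable def TT (C X : ℝ) : ℝ :=
  (1 + X ^ (-0.0648 : ℝ)) / (1 - 8 * C / Real.log X) *
    (∑ p ∈ PI (X ^ (1 / 8 : ℝ)) (X ^ (0.2495 : ℝ)), (1 : ℝ) / p * f₁ (Real.log p / Real.log X)) +
  (1 + X ^ (-0.0648 : ℝ)) *
    (∑ p ∈ PI (X ^ (0.2495 : ℝ)) (X ^ (0.435 : ℝ)), (1 : ℝ) / p * f₂ (Real.log p / Real.log X)) +
  X ^ (-0.0003 : ℝ) * (2 * Real.log X ^ 2)

theorem tendsto_err : Tendsto (fun X : ℝ => X ^ (-0.0003 : ℝ) * (2 * Real.log X ^ 2)) atTop (𝓝 0) := by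
  have h := (isLittleO_log_rpow_rpow_atTop 2 (show (0 : ℝ) < 0.0003 by norm_num)).tendsto_div_nhds_zero
  have h2 := h.const_mul 2
  rw [mul_zero] at h2
  refine h2.congr' ?_
  filter_upwards [eventually_gt_atTop 1] with X hX
  rw [Real.rpow_neg (by linarith), show (2 : ℝ) = ((2 : ℕ) : ℝ) by norm_num, Real.rpow_natCast]
  ring

theorem tendsto_TT (hP : PrimeInt) (C : ℝ) : Tendsto (TT C) atTop
    (𝓝 ((∫ a in (1 / 8 : ℝ)..(0.2495 : ℝ), 8 / cu (4 * (0.4995 - a))) +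
      (∫ a in (0.2495 : ℝ)..(0.435 : ℝ), 2 / (0.4995 - a)))) := by
  have h1 := hP (1 / 8) 0.2495 f₁ (by norm_num) (by norm_num) cont₁
  have h2 := hP 0.2495 0.435 f₂ (by norm_num) (by norm_num) cont₂
  rw [int₁] at h1
  rw [int₂] at h2
  have h3 : Tendsto (fun X : ℝ => 1 + X ^ (-0.0648 : ℝ)) atTop (𝓝 (1 + 0)) :=
    (tendsto_rpow_neg_atTop (by norm_num)).const_add 1
  have h4 : Tendsto (fun X : ℝ => 1 - 8 * C / Real.log X) atTop (𝓝 (1 - 0)) :=
    (Tendsto.div_atTop tendsto_const_nhds Real.tendsto_log_atTop).const_sub 1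
  have h5 := (((h3.div h4 (by norm_num)).mul h1).add (h3.mul h2)).add tendsto_err
  have e : (1 + 0) / (1 - 0) * (∫ a in (1 / 8 : ℝ)..(0.2495 : ℝ), 8 / cu (4 * (0.4995 - a))) +
      (1 + 0) * (∫ a in (0.2495 : ℝ)..(0.435 : ℝ), 2 / (0.4995 - a)) + 0 =
      (∫ a in (1 / 8 : ℝ)..(0.2495 : ℝ), 8 / cu (4 * (0.4995 - a))) +
      (∫ a in (0.2495 : ℝ)..(0.435 : ℝ), 2 / (0.4995 - a)) := by ring
  rw [e] at h5
  exact h5

theorem sq_level {X : ℝ} (hX : 1 < X) {p : ℕ} (hp : 0 < (p : ℝ)) :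
    (X ^ ((0.4995 - Real.log p / Real.log X) / 2)) ^ 2 = X ^ (0.4995 : ℝ) / p := by
  have hX0 : 0 < X := by linarith
  rw [← Real.rpow_natCast, ← Real.rpow_mul hX0.le]
  rw [show (0.4995 - Real.log p / Real.log X) / 2 * ((2 : ℕ) : ℝ) =
    0.4995 - Real.log p / Real.log X by push_cast; ring, Real.rpow_sub hX0, rpow_ratio hX hp]

open Classical in
/-- AV8 -/
theorem topUp (hS : SelbergP) (hL : GGlow) (hT : GGtriv) (hP : PrimeInt) : TopUp := by
  intro ε hε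
  obtain ⟨C₀, hC₀⟩ := hL
  obtain ⟨C, hC, hC0⟩ : ∃ C : ℝ, (∀ z u : ℝ, 2 ≤ z → 1 ≤ u → u ≤ 2 →
      cu u * Real.log z - C ≤ GG z (z ^ u)) ∧ 0 ≤ C :=
    ⟨max C₀ 0, fun z u h1 h2 h3 => le_trans (by unfold cu; linarith [le_max_left C₀ 0])
      (hC₀ z u h1 h2 h3), le_max_right _ _⟩
  have hev : ∀ᶠ X : ℝ in atTop, TT C X < (∫ a in (1 / 8 : ℝ)..(0.2495 : ℝ), 8 / cu (4 * (0.4995 - a))) +
      (∫ a in (0.2495 : ℝ)..(0.435 : ℝ), 2 / (0.4995 - a)) + ε :=
    (tendsto_TT hP C).eventually_lt_const (by linarith)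
  have hev2 : ∀ᶠ X : ℝ in atTop, 16 * C + 1 ≤ Real.log X :=
    Real.tendsto_log_atTop.eventually_ge_atTop _
  obtain ⟨X₀, hX₀⟩ := eventually_atTop.1 ((hev.and hev2).and (eventually_ge_atTop 256))
  refine ⟨X₀, fun X hX y l hl hlX => ?_⟩
  obtain ⟨⟨h1, h2⟩, h3⟩ := hX₀ X hX
  have hX1 : 1 < X := by linarith
  have hX0 : 0 < X := by linarith
  have hlog : 0 < Real.log X := Real.log_pos hX1
  have hκ : 0 < 1 - 8 * C / Real.log X := by
    rw [sub_pos, div_lt_one hlog]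
    linarith
  have hz2 : 2 ≤ X ^ (1 / 8 : ℝ) := by
    calc (2 : ℝ) = (256 : ℝ) ^ (1 / 8 : ℝ) := by
          rw [show (256 : ℝ) = 2 ^ (8 : ℝ) by norm_num, ← Real.rpow_mul (by norm_num)]
          norm_num
      _ ≤ X ^ (1 / 8 : ℝ) := Real.rpow_le_rpow (by norm_num) h3 (by norm_num)
  have hlogz : Real.log (X ^ (1 / 8 : ℝ)) = Real.log X / 8 := by
    rw [Real.log_rpow hX0]; ring
  have hl0 : (0 : ℝ) < l := lt_of_lt_of_le (Real.rpow_pos_of_pos hX0 _) hl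
  set N : ℕ → ℝ := fun p => ((((Finset.Ico y (y + l)).filter fun n => p ∣ n ∧
        ∀ r : ℕ, r.Prime → r ∣ n → X ^ (1 / 8 : ℝ) < r).card : ℕ) : ℝ) with hN
  -- the general bound
  have hgen : ∀ (p : ℕ) (g : ℝ), 0 < (p : ℝ) → (p : ℝ) ≤ X ^ (0.435 : ℝ) →
      Real.log p / Real.log X ≤ 0.435 → 0 < g → 0 ≤ Real.log p / Real.log X →
      g ≤ GG (X ^ (1 / 8 : ℝ)) (X ^ ((0.4995 - Real.log p / Real.log X) / 2)) →
      Real.log p / Real.log X * N p ≤
        Real.log p / Real.log X * ((l : ℝ) / p * (1 + X ^ (-0.0648 : ℝ)) / g) +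
          X ^ (0.4995 : ℝ) * (1 / p) := by
    intro p g hp0 hp1 ha hg ha0 hgG
    have hp1' : 1 ≤ p := by exact_mod_cast (Nat.cast_pos.1 hp0)
    have hY : 1 ≤ X ^ ((0.4995 - Real.log p / Real.log X) / 2) :=
      Real.one_le_rpow hX1.le (by linarith)
    have h4 := hS y l p (X ^ (1 / 8 : ℝ)) (X ^ ((0.4995 - Real.log p / Real.log X) / 2)) hp1' hY
    rw [sq_level hX1 hp0] at h4
    have h5 : ((l : ℝ) / p + 1) / GG (X ^ (1 / 8 : ℝ))
        (X ^ ((0.4995 - Real.log p / Real.log X) / 2)) ≤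
        (l : ℝ) / p * (1 + X ^ (-0.0648 : ℝ)) / g := by
      apply div_le_div₀ (by positivity) (lp_le hX1 hl hp0 hp1) hg hgG
    have h6 : N p ≤ (l : ℝ) / p * (1 + X ^ (-0.0648 : ℝ)) / g + X ^ (0.4995 : ℝ) / p :=
      h4.trans (by linarith)
    have h7 : Real.log p / Real.log X * (X ^ (0.4995 : ℝ) / p) ≤ X ^ (0.4995 : ℝ) * (1 / p) := by
      rw [mul_one_div]
      apply mul_le_of_le_one_left (by positivity)
      linarith
    calc Real.log p / Real.log X * N p ≤ Real.log p / Real.log X *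
          ((l : ℝ) / p * (1 + X ^ (-0.0648 : ℝ)) / g + X ^ (0.4995 : ℝ) / p) :=
          mul_le_mul_of_nonneg_left h6 ha0
      _ ≤ _ := by rw [mul_add]; linarith
  -- the first range
  have hr1 : ∀ p ∈ PI (X ^ (1 / 8 : ℝ)) (X ^ (0.2495 : ℝ)), Real.log p / Real.log X * N p ≤
      (l : ℝ) / Real.log X * ((1 + X ^ (-0.0648 : ℝ)) / (1 - 8 * C / Real.log X) *
        (1 / p * f₁ (Real.log p / Real.log X))) + X ^ (0.4995 : ℝ) * (1 / p) := by
    intro p hp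
    rw [mem_PI (by positivity)] at hp
    obtain ⟨ha1, ha2⟩ := ratio_bounds hX1 hp.2.1 hp.2.2
    have hp0 : 0 < (p : ℝ) := lt_trans (Real.rpow_pos_of_pos hX0 _) hp.2.1
    set a : ℝ := Real.log p / Real.log X with ha
    have hu1 : 1 ≤ 4 * (0.4995 - a) := by linarith
    have hu2 : 4 * (0.4995 - a) ≤ 2 := by linarith
    have hcu := one_le_cu hu1 hu2
    have hg : cu (4 * (0.4995 - a)) * (Real.log X / 8) * (1 - 8 * C / Real.log X) ≤
        GG (X ^ (1 / 8 : ℝ)) (X ^ ((0.4995 - a) / 2)) := by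
      have h4 := hC (X ^ (1 / 8 : ℝ)) (4 * (0.4995 - a)) hz2 hu1 hu2
      rw [hlogz, ← Real.rpow_mul hX0.le, show (1 / 8 : ℝ) * (4 * (0.4995 - a)) = (0.4995 - a) / 2 by ring]
        at h4
      refine le_trans ?_ h4
      have e : cu (4 * (0.4995 - a)) * (Real.log X / 8) * (1 - 8 * C / Real.log X) =
          cu (4 * (0.4995 - a)) * (Real.log X / 8) - cu (4 * (0.4995 - a)) * C := by
        field_simp
      rw [e]
      nlinarith [mul_nonneg (sub_nonneg.2 hcu) hC0]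
    have hp435 : (p : ℝ) ≤ X ^ (0.435 : ℝ) :=
      hp.2.2.trans (Real.rpow_le_rpow_of_exponent_le hX1.le (by norm_num))
    have h5 := hgen p _ hp0 hp435 (by linarith) (by positivity) (by linarith) hg
    refine h5.trans (le_of_eq ?_)
    have e : a * ((l : ℝ) / p * (1 + X ^ (-0.0648 : ℝ)) /
        (cu (4 * (0.4995 - a)) * (Real.log X / 8) * (1 - 8 * C / Real.log X))) =
        (l : ℝ) / Real.log X * ((1 + X ^ (-0.0648 : ℝ)) / (1 - 8 * C / Real.log X) *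
        (1 / p * f₁ a)) := by
      unfold f₁
      have hcu0 : cu (4 * (0.4995 - a)) ≠ 0 := by linarith
      have hκ0 := hκ.ne'
      generalize 1 - 8 * C / Real.log X = κ at *
      generalize cu (4 * (0.4995 - a)) = c at *
      generalize X ^ (-0.0648 : ℝ) = δ at *
      have hlog0 := hlog.ne'
      have hp00 := hp0.ne'
      clear_value a
      field_simp
    rw [e]
  -- the second range
  have hr2 : ∀ p ∈ PI (X ^ (0.2495 : ℝ)) (X ^ (0.435 : ℝ)), Real.log p / Real.log X * N p ≤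
      (l : ℝ) / Real.log X * ((1 + X ^ (-0.0648 : ℝ)) *
        (1 / p * f₂ (Real.log p / Real.log X))) + X ^ (0.4995 : ℝ) * (1 / p) := by
    intro p hp
    rw [mem_PI (by positivity)] at hp
    obtain ⟨ha1, ha2⟩ := ratio_bounds hX1 hp.2.1 hp.2.2
    have hp0 : 0 < (p : ℝ) := lt_trans (Real.rpow_pos_of_pos hX0 _) hp.2.1
    set a : ℝ := Real.log p / Real.log X with ha
    have hY : 1 ≤ X ^ ((0.4995 - a) / 2) := Real.one_le_rpow hX1.le (by linarith)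
    have hYz : X ^ ((0.4995 - a) / 2) ≤ X ^ (1 / 8 : ℝ) :=
      Real.rpow_le_rpow_of_exponent_le hX1.le (by linarith)
    have hg := hT _ _ hY hYz
    rw [Real.log_rpow hX0] at hg
    have hpos : 0 < 0.4995 - a := by linarith
    have h5 := hgen p _ hp0 hp.2.2 (by linarith) (by positivity) (by linarith) hg
    refine h5.trans (le_of_eq ?_)
    have e : a * ((l : ℝ) / p * (1 + X ^ (-0.0648 : ℝ)) / ((0.4995 - a) / 2 * Real.log X)) =
        (l : ℝ) / Real.log X * ((1 + X ^ (-0.0648 : ℝ)) * (1 / p * f₂ a)) := by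
      unfold f₂
      have hpos0 := hpos.ne'
      generalize 0.4995 - a = c at *
      generalize X ^ (-0.0648 : ℝ) = δ at *
      have hlog0 := hlog.ne'
      have hp00 := hp0.ne'
      clear_value a
      field_simp
    rw [e]
  -- summation
  have hb0 : 0 ≤ X ^ (0.2495 : ℝ) := by positivity
  have hab : X ^ (1 / 8 : ℝ) ≤ X ^ (0.2495 : ℝ) :=
    Real.rpow_le_rpow_of_exponent_le hX1.le (by norm_num)
  have hbc : X ^ (0.2495 : ℝ) ≤ X ^ (0.435 : ℝ) :=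
    Real.rpow_le_rpow_of_exponent_le hX1.le (by norm_num)
  have hcX : X ^ (0.435 : ℝ) ≤ X := by
    calc X ^ (0.435 : ℝ) ≤ X ^ (1 : ℝ) := Real.rpow_le_rpow_of_exponent_le hX1.le (by norm_num)
      _ = X := Real.rpow_one X
  have hinv : ∑ p ∈ PI (X ^ (1 / 8 : ℝ)) (X ^ (0.2495 : ℝ)), (1 : ℝ) / p +
      ∑ p ∈ PI (X ^ (0.2495 : ℝ)) (X ^ (0.435 : ℝ)), (1 : ℝ) / p ≤ 1 + Real.log X := by
    rw [← Finset.sum_union (PI_disj hb0 hbc), ← PI_union hb0 hab hbc]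
    exact sum_inv_PI_le (by positivity) hcX hX1.le
  have hlog1 : 1 ≤ Real.log X := by linarith
  have herr : X ^ (0.4995 : ℝ) * (1 + Real.log X) ≤
      (l : ℝ) / Real.log X * (X ^ (-0.0003 : ℝ) * (2 * Real.log X ^ 2)) := by
    have e : (l : ℝ) / Real.log X * (X ^ (-0.0003 : ℝ) * (2 * Real.log X ^ 2)) =
        (l : ℝ) * X ^ (-0.0003 : ℝ) * (2 * Real.log X) := by
      field_simp
    rw [e]
    have h6 : X ^ (0.4995 : ℝ) ≤ (l : ℝ) * X ^ (-0.0003 : ℝ) := by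
      calc X ^ (0.4995 : ℝ) = X ^ (0.4998 : ℝ) * X ^ (-0.0003 : ℝ) := by
            rw [← Real.rpow_add hX0]; norm_num
        _ ≤ _ := by gcongr
    apply mul_le_mul h6 (by linarith) (by linarith) (by positivity)
  rw [PI_union hb0 hab hbc, Finset.sum_union (PI_disj hb0 hbc)]
  calc _ ≤ ∑ p ∈ PI (X ^ (1 / 8 : ℝ)) (X ^ (0.2495 : ℝ)), ((l : ℝ) / Real.log X *
        ((1 + X ^ (-0.0648 : ℝ)) / (1 - 8 * C / Real.log X) *
        (1 / p * f₁ (Real.log p / Real.log X))) + X ^ (0.4995 : ℝ) * (1 / p)) +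
      ∑ p ∈ PI (X ^ (0.2495 : ℝ)) (X ^ (0.435 : ℝ)), ((l : ℝ) / Real.log X *
        ((1 + X ^ (-0.0648 : ℝ)) * (1 / p * f₂ (Real.log p / Real.log X))) +
        X ^ (0.4995 : ℝ) * (1 / p)) :=
        add_le_add (Finset.sum_le_sum hr1) (Finset.sum_le_sum hr2)
    _ = (l : ℝ) / Real.log X * ((1 + X ^ (-0.0648 : ℝ)) / (1 - 8 * C / Real.log X) *
          (∑ p ∈ PI (X ^ (1 / 8 : ℝ)) (X ^ (0.2495 : ℝ)), (1 : ℝ) / p *
            f₁ (Real.log p / Real.log X)) +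
          (1 + X ^ (-0.0648 : ℝ)) * (∑ p ∈ PI (X ^ (0.2495 : ℝ)) (X ^ (0.435 : ℝ)), (1 : ℝ) / p *
            f₂ (Real.log p / Real.log X))) +
        X ^ (0.4995 : ℝ) * (∑ p ∈ PI (X ^ (1 / 8 : ℝ)) (X ^ (0.2495 : ℝ)), (1 : ℝ) / p +
          ∑ p ∈ PI (X ^ (0.2495 : ℝ)) (X ^ (0.435 : ℝ)), (1 : ℝ) / p) := by
        rw [Finset.sum_add_distrib, Finset.sum_add_distrib, ← Finset.mul_sum, ← Finset.mul_sum,
          ← Finset.mul_sum, ← Finset.mul_sum, ← Finset.mul_sum, ← Finset.mul_sum]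
        ring
    _ ≤ (l : ℝ) / Real.log X * ((1 + X ^ (-0.0648 : ℝ)) / (1 - 8 * C / Real.log X) *
          (∑ p ∈ PI (X ^ (1 / 8 : ℝ)) (X ^ (0.2495 : ℝ)), (1 : ℝ) / p *
            f₁ (Real.log p / Real.log X)) +
          (1 + X ^ (-0.0648 : ℝ)) * (∑ p ∈ PI (X ^ (0.2495 : ℝ)) (X ^ (0.435 : ℝ)), (1 : ℝ) / p *
            f₂ (Real.log p / Real.log X))) +
        (l : ℝ) / Real.log X * (X ^ (-0.0003 : ℝ) * (2 * Real.log X ^ 2)) := by
        have h8 := mul_le_mul_of_nonneg_left hinv (show 0 ≤ X ^ (0.4995 : ℝ) by positivity)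
        linarith
    _ = (l : ℝ) / Real.log X * TT C X := by
        unfold TT
        ring
    _ ≤ (l : ℝ) / Real.log X * ((∫ a in (1 / 8 : ℝ)..(0.2495 : ℝ), 8 / cu (4 * (0.4995 - a))) +
          (∫ a in (0.2495 : ℝ)..(0.435 : ℝ), 2 / (0.4995 - a)) + ε) :=
        mul_le_mul_of_nonneg_left h1.le (by positivity)
    _ = _ := by ring

end Pool.Agent.Helper61.AV
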